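import Mathlib
import Pool.Agent.H659.Defs
import Pool.Agent.H659.Base

set_option autoImplicit false

universe u

namespace Pool.Agent.Results.MP_a43909_al.JordanNotFinBased

open Pool.Agent.H659

/-- Over every field `F` of characteristic `3` there is a set `S` of identities such that the
variety defined by `S` consists of Jordan algebras, all its members are solvable of index `3`, and
it is not finitely based. -/
theorem result (F : Type u) [Field F] [CharP F 3] :
    ∃ S : Set (NAPoly F),
      (∀ (A : Type u) [NonUnitalNonAssocRing A] [Module F A] [IsScalarTower F A A]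
        [SMulCommClass F A A], InVariety S A →
          (∀ x y : A, x * y = y * x) ∧
          (∀ x y : A, ((x * x) * y) * x = (x * x) * (y * x)) ∧
          derivedSeries F A 3 = ⊥) ∧
      ¬ FinitelyBased S := by
  refine ⟨Sall F, ?_, Sall_not_finitelyBased F⟩
  intro A _ _ _ _ hA
  obtain ⟨hc, ha, hs⟩ := variety_props F A hA
  refine ⟨hc, fun x y => ?_, hs⟩
  rw [ha x y, ha x (y * x), hc (x * (x * y)) x, hc y x]

end Pool.Agent.Results.MP_a43909_al.JordanNotFinBased
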